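import Mathlib
import Pool.Agent.H497.TV.Asm
import Pool.Agent.H497.TU.Final
import Pool.Agent.H497.TT.Hecke

set_option autoImplicit false

/-! Central values. Over a global function field the Satake parameters of a tempered representation of `G(V) × G(W)` are
classes `c_P` in a compact form `G` of the dual group, and `L(s, π, R)` is one of the `L(s, ρ(c))`, `ρ` an irreducible
representation of `G`. We show that the local classes at a thin (possibly infinite) set `T` of places together with all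
the analytic properties of ALL the `L(s, ρ_i(c) × χ)` (`ρ_i` the irreducible representations of `G`, `χ` the twists
of bounded rank: polynomials in `q^(-s)` with functional equation, prescribed degrees and root numbers, no zeros in
`Re s > 1/2 + δ`) put no condition on the central values: the orders of vanishing at `s = 1/2`, the leading
coefficients there, and further zeros near the critical line can be prescribed for all pairs `(i, χ)` independently. -/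

namespace Pool.Agent.Results.MP_86aa84_nt.CentralValuesPrescribed

open Polynomial Pool.Agent.H497.TT Pool.Agent.H497.TU

/-- the primitive idele class characters of `F(t)` (trivial at the uniformiser `1/t` of infinity) with their conductor
`(f, m)`, given by their values at the monic polynomials -/
abbrev Characters (F : Type) [Field F] [Fintype F] : Type :=
  {x : F[X] × ℕ × (F[X] → ℂ) // Pool.Agent.H497.FF.IsPrim x.1 x.2.1 x.2.2}

theorem result :
    (∀ (δ : ℝ) (B : ℕ), 0 < δ → δ ≤ 1 / 8 → ∃ ν : ℕ, ∀ (𝓟 𝓧 : Type) (S : TSys 𝓟 𝓧),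
      ∀ (G : Type) [Group G] [TopologicalSpace G] [IsTopologicalGroup G] [CompactSpace G] [T2Space G],
      GeneratedByOneParameter G →
      -- inequivalent nontrivial irreducible representations, one from each pair of dual representations
      ∀ (n : ℕ → ℕ) (ρ : (i : ℕ) → G →* Matrix.unitaryGroup (Fin (n i)) ℂ),
        (∀ i, Continuous (ρ i) ∧ Irr (ρ i) ∧ ∃ g, ρ i g ≠ 1) →
        (∀ i j, i ≠ j → ¬ Equi (mat (ρ i)) (mat (ρ j)) ∧ ¬ Equi (mat (ρ i)) (cmat (ρ j))) →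
      -- a thin set of places
      ∀ (T : Set 𝓟) (C : ℕ), (∀ k : ℕ, k ≠ 0 → (k : ℝ) * {P | P ∈ T ∧ S.deg P = k}.ncard ≤ C * √(S.q : ℝ) ^ k) →
      ∃ N0 : ℕ → ℕ,
      -- degrees and root numbers
      ∀ (N : ℕ → 𝓧 → ℕ) (W : ℕ → 𝓧 → ℂ),
        (∀ i χ, ν * (S.a + 1) * (S.c χ + 1) + N0 i ≤ N i χ ∧ S.per χ ∣ N i χ ∧ 2 * S.per χ ≤ N i χ ∧
          ‖W i χ‖ = 1) →
      -- values and zeros
      ∀ (v : ℕ → 𝓧 → ℂ) (Z : ℕ → 𝓧 → ℂ[X]),
        (∀ i χ, W i χ * starRingEnd ℂ (v i χ) = v i χ ∧ ‖v i χ‖ ≤ (S.q : ℝ) ^ (δ / 5 * N i χ)) →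
        (∀ i χ, (Z i χ).coeff 0 = 1 ∧ (Z i χ).natDegree ≤ B * (S.c χ + 1) ∧
          (∀ k, ¬ S.per χ ∣ k → (Z i χ).coeff k = 0) ∧
          ∀ u : ℂ, ‖u‖ < (S.q : ℝ) ^ (-(1 / 2 + δ / 4)) → (Z i χ).eval u ≠ 0) →
        (∀ i, Equi (mat (ρ i)) (cmat (ρ i)) → ∀ χ, N i (S.bar χ) = N i χ ∧ W i (S.bar χ) = starRingEnd ℂ (W i χ) ∧
          v i (S.bar χ) = starRingEnd ℂ (v i χ) ∧ Z i (S.bar χ) = (Z i χ).map (starRingEnd ℂ)) →
      -- the classes at the places in `T`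
      ∀ c0 : 𝓟 → G, ∃ c : 𝓟 → G, (∀ P ∈ T, c P = c0 P) ∧ ∀ (i : ℕ) (χ : 𝓧), ∃ M : ℂ[X],
        Nice S.q (N i χ) (W i χ) δ M ∧ M.eval ((1 / √(S.q : ℝ) : ℝ) : ℂ) = v i χ ∧
        ∀ u : ℂ, ‖u‖ < 1 / S.q → HasProd (fun P : 𝓟 => ∏ j,
          (1 - (S.par χ P j * u ^ S.deg P) • mat (ρ i) (c P)).det⁻¹) ((Z i χ).eval u * M.eval u)) ∧
    -- the finite places and all the idele class characters of `F(t)`
    ∀ (F : Type) [Field F] [Fintype F],
      ∃ S : TSys {P : F[X] // P.Monic ∧ Irreducible P} (Characters F),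
        S.q = Fintype.card F ∧ S.a = 2 ∧ S.R = 1 ∧ (∀ P, S.deg P = (P : F[X]).natDegree) ∧
        (∀ χ P j, S.par χ P j = χ.1.2.2 P) ∧ (∀ χ, S.c χ = χ.1.1.natDegree + χ.1.2.1 ∧ S.per χ = 1) ∧
        ∀ χ, (S.bar χ).1 = (χ.1.1, χ.1.2.1, fun D => starRingEnd ℂ (χ.1.2.2 D)) := by
  refine ⟨fun δ B hδ hδ1 => ?_, fun F _ _ => ⟨heckeT F, rfl, rfl, rfl, fun _ => rfl, fun _ _ _ => rfl,
    fun _ => ⟨rfl, rfl⟩, fun _ => rfl⟩⟩
  obtain ⟨ν, H⟩ := Pool.Agent.H497.TV.mainV hδ hδ1 B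
  refine ⟨ν, fun 𝓟 𝓧 S G _ _ _ _ _ hG n ρ hρ hne T C hTC => ?_⟩
  obtain ⟨N0, H⟩ := H S G hG n ρ (fun i => (hρ i).1) (fun i => (hρ i).2.1) (fun i => (hρ i).2.2) hne T C
    (fun k hk => by rw [TPr_card]; exact hTC k hk)
  refine ⟨N0, fun N W hNW v Z hv hZ hsd c0 => ?_⟩
  obtain ⟨c, hc0, hc⟩ := H N W v Z (fun i χ => (hNW i χ).1) (fun i χ => ⟨(hNW i χ).2.1, (hNW i χ).2.2.1⟩)
    (fun i χ => (hNW i χ).2.2.2) (fun i χ => (hv i χ).1) (fun i χ => (hv i χ).2) hZ hsd c0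
  refine ⟨c, hc0, fun i χ => ?_⟩
  obtain ⟨a, b0, b1, b2, b3, b4, b6, b5⟩ := hc i χ
  obtain ⟨L, hL, hev⟩ := nice_of S.hq (hNW i χ).2.2.2 b1 b3 b4
  refine ⟨L, hL, ?_, fun u hu => ?_⟩
  · rw [hev]
    exact b6
  · rw [hev]
    exact b5 u hu

end Pool.Agent.Results.MP_86aa84_nt.CentralValuesPrescribed
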